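import Pool.Agent.TH786.GM.Energy
import Pool.Agent.W93.GB4

set_option autoImplicit false

/-! A nonempty set of moduli with many exceptional multiples has a large average greatest common
divisor. -/

namespace Pool.Agent.TH786.GM

open Finset
open Pool.Agent.TH935.GF (En)
open Pool.Agent.W93.GB (Good)

open Classical in
/-- the exceptional even multiples of `q` up to `N` -/
noncomputable def exc (ε : ℝ) (N q : ℕ) : Finset ℕ :=
  (Icc 1 N).filter (fun n => 2 ∣ n ∧ q ∣ n ∧ ¬ Good ε n)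

theorem core (t A C K : ℕ) (ε : ℝ) (hε : 0 < ε) :
    ∃ N₀ : ℕ, ∀ N : ℕ, N₀ ≤ N → ∀ Q : ℕ, 1 ≤ Q → Q ≤ N → (Q : ℝ) * Q ≤ N * Real.log N ^ K →
      ∀ R : Finset ℕ, R.Nonempty →
      (∀ q ∈ R, Q ≤ q ∧ q < 2 * Q) →
      (∀ q ∈ R, (N : ℝ) / (q * Real.log N ^ A) < (exc ε N q).card) →
      Real.log N ^ C * (R.card : ℝ) ^ (2 * (t + 1)) < GG (t + 1) R := by
  classical
  obtain ⟨N₁, h1⟩ := Pool.Agent.TH935.GF.transfer (t + 1) 4 (C + 1 + K * (2 * t + 1)) (A + 1) (Good ε) (fun B C U =>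
    Pool.Agent.W93.GB.fam (t + 1) B C U (by omega) ε hε)
  obtain ⟨N₂, h2⟩ := Pool.Agent.H373R2.T7.ev_L' (4 * 9 ^ (2 * t + 1))
  refine ⟨N₁ + N₂ + 1, fun N hN Q hQ hQN' hQN R hRne hR hbad => ?_⟩
  by_contra hcon
  push Not at hcon
  have hL := h2 N (by omega)
  obtain ⟨L, hLd⟩ : ∃ L, L = Real.log (N : ℝ) := ⟨_, rfl⟩
  have c1 := h1 N (by omega)
  rw [← hLd] at hL hcon c1 hQN
  simp only [← hLd] at hbad
  have h5 : (9 : ℝ) ≤ 9 ^ (2 * t + 1) := by
    calc (9 : ℝ) = 9 ^ 1 := by norm_num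
      _ ≤ 9 ^ (2 * t + 1) := pow_le_pow_right₀ (by norm_num) (by omega)
  have hL20 : (20 : ℝ) ≤ L := by linarith
  have hL0 : 0 < L := by linarith
  obtain ⟨M, hM⟩ : ∃ M, M = N / Q := ⟨_, rfl⟩
  have hM1 : 1 ≤ M := by
    rw [hM]
    exact Nat.div_pos hQN' (by omega)
  have hMN : M * Q ≤ N := by rw [hM]; exact Nat.div_mul_le_self _ _
  have hNM : N < (M + 1) * Q := by
    rw [hM]
    exact Nat.lt_mul_of_div_lt (Nat.lt_succ_self _) (by omega)
  have hNM2 : N ≤ 2 * M * Q := by nlinarith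
  have hQ0 : (0 : ℝ) < Q := by exact_mod_cast hQ
  have hM0 : (0 : ℝ) < M := by exact_mod_cast hM1
  have hLK : 1 ≤ L ^ K := one_le_pow₀ (by linarith)
  have hQM : (Q : ℝ) ≤ 2 * M * L ^ K := by
    have h3 : (N : ℝ) ≤ 2 * M * Q := by exact_mod_cast hNM2
    have h4 : (Q : ℝ) * Q ≤ (2 * M * L ^ K) * Q := by
      calc (Q : ℝ) * Q ≤ N * L ^ K := hQN
        _ ≤ (2 * M * Q) * L ^ K := mul_le_mul_of_nonneg_right h3 (by positivity)
        _ = (2 * M * L ^ K) * Q := by ring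
    exact le_of_mul_le_mul_right h4 hQ0
  have hRc : (0 : ℝ) < R.card := by exact_mod_cast hRne.card_pos
  obtain ⟨v, hv⟩ : ∃ v : {x // x ∈ R} × Fin M → ℤ, v = fun i =>
    ((Nat.lcm 2 (i.1 : ℕ) : ℕ) : ℤ) * (((i.2 : ℕ) : ℤ) + 1) := ⟨_, rfl⟩
  have hcard : (Fintype.card ({x // x ∈ R} × Fin M) : ℝ) = R.card * M := by
    rw [Fintype.card_prod, Fintype.card_coe, Fintype.card_fin]
    push_cast
    ring
  have hlcm : ∀ q ∈ R, 0 < Nat.lcm 2 q ∧ Nat.lcm 2 q ≤ 4 * Q ∧ q ≤ Nat.lcm 2 q := by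
    intro q hq
    have hq1 := hR q hq
    have h3 : 0 < Nat.lcm 2 q := Nat.lcm_pos (by norm_num) (by omega)
    have h4 := Nat.le_of_dvd (by omega) (lcm_dvd_two_mul q)
    exact ⟨h3, by omega, Nat.le_of_dvd h3 (Nat.dvd_lcm_right _ _)⟩
  have hv4 : ∀ i, v i ≤ ((4 : ℕ) : ℤ) * N := by
    intro i
    obtain ⟨a1, a2, a3⟩ := hlcm i.1 i.1.2
    have hi : (i.2 : ℕ) + 1 ≤ M := i.2.2
    have h3 : Nat.lcm 2 (i.1 : ℕ) * ((i.2 : ℕ) + 1) ≤ 4 * N :=
      calc Nat.lcm 2 (i.1 : ℕ) * ((i.2 : ℕ) + 1) ≤ 4 * Q * M := Nat.mul_le_mul a2 hi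
        _ = 4 * (M * Q) := by ring
        _ ≤ 4 * N := Nat.mul_le_mul_left _ hMN
    rw [hv]
    simp only
    exact_mod_cast h3
  have hEn : (En (t + 1) v : ℝ) * N ≤ L ^ (C + 1 + K * (2 * t + 1)) * (Fintype.card ({x // x ∈ R} × Fin M) : ℝ) ^ (2 * (t + 1)) := by
    have e1 := energy_bound t M Q hQ R hR
    rw [← hv] at e1
    have e2 : ((M : ℝ) + 4 * Q) ^ (2 * t + 1) ≤ (9 * L ^ K * M) ^ (2 * t + 1) := by
      apply pow_le_pow_left₀ (by positivity)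
      have : (M : ℝ) ≤ L ^ K * M := by nlinarith
      nlinarith
    have e3 : En (t + 1) v * N ≤ 2 * M * ((M + 4 * Q) ^ (2 * t + 1) * (2 * GG (t + 1) R)) :=
      calc En (t + 1) v * N ≤ En (t + 1) v * (2 * M * Q) := Nat.mul_le_mul_left _ hNM2
        _ = 2 * M * (En (t + 1) v * Q) := by ring
        _ ≤ 2 * M * ((M + 4 * Q) ^ (2 * t + 1) * (2 * GG (t + 1) R)) := Nat.mul_le_mul_left _ e1
    have e4 : ((En (t + 1) v * N : ℕ) : ℝ) ≤ ((2 * M * ((M + 4 * Q) ^ (2 * t + 1) * (2 * GG (t + 1) R)) : ℕ) : ℝ) := by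
      exact_mod_cast e3
    push_cast at e4
    rw [hcard]
    calc (En (t + 1) v : ℝ) * N ≤ 2 * M * (((M : ℝ) + 4 * Q) ^ (2 * t + 1) * (2 * GG (t + 1) R)) := e4
      _ ≤ 2 * M * ((9 * L ^ K * M) ^ (2 * t + 1) * (2 * GG (t + 1) R)) := by
          apply mul_le_mul_of_nonneg_left _ (by positivity)
          exact mul_le_mul_of_nonneg_right e2 (by positivity)
      _ = 4 * 9 ^ (2 * t + 1) * (L ^ (K * (2 * t + 1)) * (M : ℝ) ^ (2 * t + 2)) * GG (t + 1) R := by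
          rw [mul_pow, mul_pow, ← pow_mul]
          ring
      _ ≤ 4 * 9 ^ (2 * t + 1) * (L ^ (K * (2 * t + 1)) * (M : ℝ) ^ (2 * t + 2)) *
          (L ^ C * (R.card : ℝ) ^ (2 * (t + 1))) :=
          mul_le_mul_of_nonneg_left hcon (by positivity)
      _ ≤ L * (L ^ (K * (2 * t + 1)) * (M : ℝ) ^ (2 * t + 2)) * (L ^ C * (R.card : ℝ) ^ (2 * (t + 1))) := by
          apply mul_le_mul_of_nonneg_right _ (by positivity)
          exact mul_le_mul_of_nonneg_right hL (by positivity)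
      _ = L ^ (C + 1 + K * (2 * t + 1)) * ((R.card : ℝ) * M) ^ (2 * (t + 1)) := by
          rw [mul_pow, show 2 * t + 2 = 2 * (t + 1) by ring, pow_add L (C + 1), pow_succ L C]
          ring
  obtain ⟨S, hS⟩ : ∃ S : Finset ({x // x ∈ R} × Fin M), S = univ.filter (fun i => ¬ Good ε (v i).toNat) :=
    ⟨_, rfl⟩
  have hSle := c1 _ v hv4 hEn S (by
    intro i hi
    rw [hS, mem_filter] at hi
    obtain ⟨a1, a2, a3⟩ := hlcm i.1 i.1.2
    refine ⟨?_, ?_, hi.2⟩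
    · rw [hv]
      have : (0 : ℤ) < (Nat.lcm 2 (i.1 : ℕ) : ℕ) := by exact_mod_cast a1
      positivity
    · rw [hv]
      apply Even.mul_right
      have h3 : Even (Nat.lcm 2 (i.1 : ℕ)) := even_iff_two_dvd.2 (Nat.dvd_lcm_left _ _)
      exact_mod_cast h3)
  rw [hcard] at hSle
  -- lower bound
  have hlow : ∀ q : {x // x ∈ R}, (M : ℝ) / (2 * L ^ A) < ((S.filter (fun i => i.1 = q)).card : ℝ) := by
    intro q
    obtain ⟨a1, a2, a3⟩ := hlcm q q.2
    have hq := hR q q.2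
    have hq0 : (0 : ℝ) < (q : ℕ) := by exact_mod_cast (by omega : 0 < (q : ℕ))
    have h3 : (exc ε N q).card ≤ (S.filter (fun i => i.1 = q)).card := by
      have hdiv : ∀ n ∈ exc ε N q, Nat.lcm 2 (q : ℕ) ∣ n ∧ 0 < n / Nat.lcm 2 (q : ℕ) ∧
          n / Nat.lcm 2 (q : ℕ) ≤ M := by
        intro n hn
        unfold exc at hn
        rw [mem_filter, mem_Icc] at hn
        have h4 : Nat.lcm 2 (q : ℕ) ∣ n := Nat.lcm_dvd hn.2.1 hn.2.2.1
        refine ⟨h4, Nat.div_pos (Nat.le_of_dvd (by omega) h4) a1, ?_⟩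
        calc n / Nat.lcm 2 (q : ℕ) ≤ N / Nat.lcm 2 (q : ℕ) := Nat.div_le_div_right hn.1.2
          _ ≤ N / Q := Nat.div_le_div_left (hq.1.trans a3) (by omega)
          _ = M := hM.symm
      apply card_le_card_of_injOn (fun n => (q, if h : n / Nat.lcm 2 (q : ℕ) - 1 < M then
        (⟨n / Nat.lcm 2 (q : ℕ) - 1, h⟩ : Fin M) else ⟨0, hM1⟩))
      · intro n hn
        rw [mem_coe] at hn
        obtain ⟨b1, b2, b3⟩ := hdiv n hn
        have hlt : n / Nat.lcm 2 (q : ℕ) - 1 < M := by omega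
        rw [mem_coe, mem_filter, hS, mem_filter]
        refine ⟨⟨mem_univ _, ?_⟩, rfl⟩
        have hval : (v (q, if h : n / Nat.lcm 2 (q : ℕ) - 1 < M then
            (⟨n / Nat.lcm 2 (q : ℕ) - 1, h⟩ : Fin M) else ⟨0, hM1⟩)).toNat = n := by
          rw [dif_pos hlt, hv]
          have h4 : Nat.lcm 2 (q : ℕ) * (n / Nat.lcm 2 (q : ℕ) - 1 + 1) = n := by
            rw [Nat.sub_add_cancel b2]
            exact Nat.mul_div_cancel' b1
          have h5 : (((Nat.lcm 2 (q : ℕ) : ℕ) : ℤ) * (((n / Nat.lcm 2 (q : ℕ) - 1 : ℕ) : ℤ) + 1)) = (n : ℤ) := by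
            exact_mod_cast h4
          change (((Nat.lcm 2 (q : ℕ) : ℕ) : ℤ) * (((n / Nat.lcm 2 (q : ℕ) - 1 : ℕ) : ℤ) + 1)).toNat = n
          rw [h5]
          exact Int.toNat_natCast n
        rw [hval]
        unfold exc at hn
        rw [mem_filter] at hn
        exact hn.2.2.2
      · intro n hn n' hn' hnn
        rw [mem_coe] at hn hn'
        obtain ⟨b1, b2, b3⟩ := hdiv n hn
        obtain ⟨b1', b2', b3'⟩ := hdiv n' hn'
        have hlt : n / Nat.lcm 2 (q : ℕ) - 1 < M := by omega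
        have hlt' : n' / Nat.lcm 2 (q : ℕ) - 1 < M := by omega
        simp only [Prod.mk.injEq, true_and] at hnn
        rw [dif_pos hlt, dif_pos hlt', Fin.mk.injEq] at hnn
        have h4 : n / Nat.lcm 2 (q : ℕ) = n' / Nat.lcm 2 (q : ℕ) := by omega
        rw [← Nat.div_mul_cancel b1, ← Nat.div_mul_cancel b1', h4]
    have h4 : ((exc ε N q).card : ℝ) ≤ ((S.filter (fun i => i.1 = q)).card : ℝ) := by exact_mod_cast h3
    have h6 := hbad q q.2
    have h7 : (M : ℝ) / (2 * L ^ A) ≤ (N : ℝ) / ((q : ℕ) * L ^ A) := by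
      rw [div_le_div_iff₀ (by positivity) (by positivity)]
      have h8 : (M : ℝ) * (q : ℕ) ≤ N * 2 := by
        have h9 : M * (q : ℕ) ≤ N * 2 := by
          calc M * (q : ℕ) ≤ M * (2 * Q) := Nat.mul_le_mul_left _ hq.2.le
            _ = M * Q * 2 := by ring
            _ ≤ N * 2 := Nat.mul_le_mul_right _ hMN
        exact_mod_cast h9
      calc (M : ℝ) * ((q : ℕ) * L ^ A) = (M * (q : ℕ)) * L ^ A := by ring
        _ ≤ (N * 2) * L ^ A := mul_le_mul_of_nonneg_right h8 (by positivity)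
        _ = N * (2 * L ^ A) := by ring
    linarith
  have hSsum : (S.card : ℝ) = ∑ q : {x // x ∈ R}, ((S.filter (fun i => i.1 = q)).card : ℝ) := by
    have h3 : S.card = ∑ q ∈ (univ : Finset {x // x ∈ R}), (S.filter (fun i => i.1 = q)).card :=
      card_eq_sum_card_fiberwise (fun q _ => mem_coe.2 (mem_univ _))
    rw [h3]
    push_cast
    rfl
  have hSlow : (R.card : ℝ) * ((M : ℝ) / (2 * L ^ A)) ≤ S.card := by
    rw [hSsum]
    calc (R.card : ℝ) * ((M : ℝ) / (2 * L ^ A)) = ∑ _q : {x // x ∈ R}, (M : ℝ) / (2 * L ^ A) := by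
          rw [sum_const, card_univ, Fintype.card_coe, nsmul_eq_mul]
      _ ≤ _ := sum_le_sum fun q _ => (hlow q).le
  have h9 : (R.card : ℝ) * ((M : ℝ) / (2 * L ^ A)) ≤ R.card * M / L ^ (A + 1) := hSlow.trans hSle
  rw [mul_div_assoc] at h9
  have h10 : (M : ℝ) / (2 * L ^ A) ≤ M / L ^ (A + 1) := le_of_mul_le_mul_left h9 hRc
  rw [div_le_div_iff₀ (by positivity) (by positivity)] at h10
  have h11 : L ^ (A + 1) ≤ 2 * L ^ A := le_of_mul_le_mul_left h10 hM0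
  rw [pow_succ, mul_comm (2 : ℝ)] at h11
  have h12 : L ≤ 2 := le_of_mul_le_mul_left h11 (by positivity)
  linarith

end Pool.Agent.TH786.GM
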