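import Mathlib

set_option autoImplicit false

/-! Sets of integers for which all subsets have large average greatest common divisors consist of
multiples of few integers. -/

namespace Pool.Agent.TH786.GM

open Finset

/-- the sum of the greatest common divisors of the `2 h`-tuples of members of `R` -/
def GG (h : ℕ) (R : Finset ℕ) : ℕ :=
  ∑ a ∈ Fintype.piFinset (fun _ : Fin h => R), ∑ b ∈ Fintype.piFinset (fun _ : Fin h => R),
    Nat.gcd (univ.gcd a) (univ.gcd b)

lemma sum_inv_sq (Z : ℕ) : ∑ d ∈ Icc 1 (Z + 1), 1 / (d : ℝ) ^ 2 ≤ 2 - 1 / ((Z : ℝ) + 1) := by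
  induction Z with
  | zero => simp; norm_num
  | succ Z ih =>
    rw [sum_Icc_succ_top (by omega : 1 ≤ Z + 1 + 1)]
    push_cast
    have h1 : 1 / ((Z : ℝ) + 1 + 1) ^ 2 ≤ 1 / ((Z : ℝ) + 1) - 1 / ((Z : ℝ) + 1 + 1) := by
      have hz : (0 : ℝ) ≤ Z := Nat.cast_nonneg _
      have e : 1 / ((Z : ℝ) + 1) - 1 / ((Z : ℝ) + 1 + 1) = 1 / (((Z : ℝ) + 1) * ((Z : ℝ) + 1 + 1)) := by
        field_simp
        ring
      rw [e]
      apply one_div_le_one_div_of_le (by positivity)
      nlinarith
    linarith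

lemma sum_inv_sq' (Z : ℕ) : ∑ d ∈ Icc 1 Z, 1 / (d : ℝ) ^ 2 ≤ 2 := by
  rcases Z with _ | Z
  · simp
  · have h1 := sum_inv_sq Z
    have h2 : 0 ≤ 1 / ((Z : ℝ) + 1) := by positivity
    linarith

lemma exists_d (h : ℕ) (hh : 1 ≤ h) (Y η : ℝ) (hY : 0 ≤ Y) (hη : η * (2 * h) = 3) (R : Finset ℕ)
    (hR : ∀ q ∈ R, 0 < q) (hG : (Y + 2) * (R.card : ℝ) ^ (2 * h) < GG h R) :
    ∃ d : ℕ, Y < d ∧ (R.card : ℝ) * (d : ℝ) ^ (-η) ≤ (R.filter (fun q => d ∣ q)).card := by
  classical
  by_contra hcon
  push Not at hcon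
  obtain ⟨P, hP⟩ : ∃ P, P = (Fintype.piFinset (fun _ : Fin h => R)) ×ˢ
    (Fintype.piFinset (fun _ : Fin h => R)) := ⟨_, rfl⟩
  obtain ⟨γ, hγ⟩ : ∃ γ : (Fin h → ℕ) × (Fin h → ℕ) → ℕ, γ = fun p =>
    Nat.gcd (univ.gcd p.1) (univ.gcd p.2) := ⟨_, rfl⟩
  have hGG : GG h R = ∑ p ∈ P, γ p := by
    unfold GG
    rw [hP, sum_product, hγ]
  have hPc : P.card = R.card ^ (2 * h) := by
    rw [hP, card_product, Fintype.card_piFinset]
    simp only [prod_const, card_univ, Fintype.card_fin]
    rw [← pow_add]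
    congr 1
    ring
  have hpos : ∀ p ∈ P, 1 ≤ γ p := by
    intro p hp
    rw [hP, mem_product, Fintype.mem_piFinset] at hp
    rw [hγ]
    apply Nat.gcd_pos_of_pos_left
    rw [Nat.pos_iff_ne_zero]
    intro h0
    rw [Finset.gcd_eq_zero_iff] at h0
    have h1 := h0 ⟨0, hh⟩ (mem_univ _)
    have h2 := hR _ (hp.1 ⟨0, hh⟩)
    omega
  obtain ⟨Z, hZ⟩ : ∃ Z : ℕ, ∀ p ∈ P, γ p ≤ Z := ⟨P.sup γ, fun p hp => le_sup hp⟩
  have hsplit : ∑ p ∈ P, (γ p : ℝ) = ∑ p ∈ P.filter (fun p => ¬ Y < (γ p : ℝ)), (γ p : ℝ) +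
      ∑ p ∈ P.filter (fun p => Y < (γ p : ℝ)), (γ p : ℝ) := by
    rw [add_comm, sum_filter_add_sum_filter_not]
  have h1 : ∑ p ∈ P.filter (fun p => ¬ Y < (γ p : ℝ)), (γ p : ℝ) ≤ Y * (R.card : ℝ) ^ (2 * h) := by
    calc ∑ p ∈ P.filter (fun p => ¬ Y < (γ p : ℝ)), (γ p : ℝ)
        ≤ ∑ p ∈ P.filter (fun p => ¬ Y < (γ p : ℝ)), Y :=
          sum_le_sum fun p hp => not_lt.1 (mem_filter.1 hp).2
      _ = (P.filter (fun p => ¬ Y < (γ p : ℝ))).card * Y := by rw [sum_const, nsmul_eq_mul]
      _ ≤ P.card * Y := by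
          apply mul_le_mul_of_nonneg_right _ hY
          exact_mod_cast card_filter_le _ _
      _ = Y * (R.card : ℝ) ^ (2 * h) := by rw [hPc]; push_cast; ring
  have h2 : ∑ p ∈ P.filter (fun p => Y < (γ p : ℝ)), (γ p : ℝ) ≤ 2 * (R.card : ℝ) ^ (2 * h) := by
    have hmap : ∀ p ∈ P.filter (fun p => Y < (γ p : ℝ)), γ p ∈ Icc 1 Z := by
      intro p hp
      have := (mem_filter.1 hp).1
      exact mem_Icc.2 ⟨hpos p this, hZ p this⟩
    rw [← sum_fiberwise_of_maps_to hmap]
    calc ∑ d ∈ Icc 1 Z, ∑ p ∈ (P.filter (fun p => Y < (γ p : ℝ))).filter (fun p => γ p = d), (γ p : ℝ)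
        ≤ ∑ d ∈ Icc 1 Z, (R.card : ℝ) ^ (2 * h) * (1 / (d : ℝ) ^ 2) := by
          apply sum_le_sum
          intro d hd
          have hd1 : 1 ≤ d := (mem_Icc.1 hd).1
          have hd0 : (0 : ℝ) < d := by exact_mod_cast hd1
          rcases lt_or_ge Y (d : ℝ) with hdY | hdY
          · have hc := hcon d hdY
            have hsub : (P.filter (fun p => Y < (γ p : ℝ))).filter (fun p => γ p = d) ⊆
                (Fintype.piFinset (fun _ : Fin h => R.filter (fun q => d ∣ q))) ×ˢ
                (Fintype.piFinset (fun _ : Fin h => R.filter (fun q => d ∣ q))) := by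
              intro p hp
              rw [mem_filter, mem_filter, hP, mem_product, Fintype.mem_piFinset,
                Fintype.mem_piFinset] at hp
              have hg : γ p = d := hp.2
              rw [hγ] at hg
              simp only at hg
              have hg1 : d ∣ univ.gcd p.1 := by rw [← hg]; exact Nat.gcd_dvd_left _ _
              have hg2 : d ∣ univ.gcd p.2 := by rw [← hg]; exact Nat.gcd_dvd_right _ _
              rw [mem_product, Fintype.mem_piFinset, Fintype.mem_piFinset]
              refine ⟨fun j => mem_filter.2 ⟨hp.1.1.1 j, hg1.trans (gcd_dvd (mem_univ j))⟩,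
                fun j => mem_filter.2 ⟨hp.1.1.2 j, hg2.trans (gcd_dvd (mem_univ j))⟩⟩
            have hcard := card_le_card hsub
            rw [card_product, Fintype.card_piFinset] at hcard
            simp only [prod_const, card_univ, Fintype.card_fin] at hcard
            rw [← pow_add, ← two_mul] at hcard
            calc ∑ p ∈ (P.filter (fun p => Y < (γ p : ℝ))).filter (fun p => γ p = d), (γ p : ℝ)
                = ∑ p ∈ (P.filter (fun p => Y < (γ p : ℝ))).filter (fun p => γ p = d), (d : ℝ) :=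
                  sum_congr rfl fun p hp => by rw [(mem_filter.1 hp).2]
              _ = (((P.filter (fun p => Y < (γ p : ℝ))).filter (fun p => γ p = d)).card : ℝ) * d := by
                  rw [sum_const, nsmul_eq_mul]
              _ ≤ ((R.filter (fun q => d ∣ q)).card : ℝ) ^ (2 * h) * d := by
                  apply mul_le_mul_of_nonneg_right _ hd0.le
                  exact_mod_cast hcard
              _ ≤ ((R.card : ℝ) * (d : ℝ) ^ (-η)) ^ (2 * h) * d := by
                  apply mul_le_mul_of_nonneg_right _ hd0.le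
                  exact pow_le_pow_left₀ (Nat.cast_nonneg _) hc.le _
              _ = (R.card : ℝ) ^ (2 * h) * (1 / (d : ℝ) ^ 2) := by
                  rw [mul_pow, ← Real.rpow_natCast ((d : ℝ) ^ (-η)) (2 * h), ← Real.rpow_mul hd0.le]
                  have e1 : -η * ((2 * h : ℕ) : ℝ) = -3 := by push_cast; linarith
                  rw [e1, Real.rpow_neg hd0.le]
                  have e2 : (d : ℝ) ^ (3 : ℝ) = (d : ℝ) ^ 3 := by
                    rw [← Real.rpow_natCast]; norm_num
                  rw [e2]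
                  field_simp
          · have hempty : (P.filter (fun p => Y < (γ p : ℝ))).filter (fun p => γ p = d) = ∅ := by
              rw [filter_eq_empty_iff]
              intro p hp hpd
              have := (mem_filter.1 hp).2
              rw [hpd] at this
              linarith
            rw [hempty, sum_empty]
            positivity
      _ = (R.card : ℝ) ^ (2 * h) * ∑ d ∈ Icc 1 Z, 1 / (d : ℝ) ^ 2 := by rw [mul_sum]
      _ ≤ (R.card : ℝ) ^ (2 * h) * 2 :=
          mul_le_mul_of_nonneg_left (sum_inv_sq' Z) (by positivity)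
      _ = 2 * (R.card : ℝ) ^ (2 * h) := by ring
  have h3 : (GG h R : ℝ) = ∑ p ∈ P, (γ p : ℝ) := by rw [hGG]; push_cast; rfl
  rw [h3, hsplit] at hG
  linarith

/-- the structure of sets all of whose subsets have a large average greatest common divisor -/
theorem structure' (h : ℕ) (hh : 1 ≤ h) (Y η : ℝ) (hY : 1 ≤ Y) (hη : η * (2 * h) = 3) :
    ∀ n : ℕ, ∀ R : Finset ℕ, R.card ≤ n → (∀ q ∈ R, 0 < q) →
      (∀ R' ⊆ R, R'.Nonempty → (Y + 2) * (R'.card : ℝ) ^ (2 * h) < GG h R') →
      ∃ D : Finset ℕ, (∀ d ∈ D, Y < d) ∧ (∀ q ∈ R, ∃ d ∈ D, d ∣ q) ∧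
        ∀ X : ℝ, 1 ≤ X → ((D.filter (fun d : ℕ => (d : ℝ) ≤ X)).card : ℝ) ≤ X ^ η * Real.log R.card + 1 := by
  classical
  have hη0 : 0 < η := by
    by_contra hcon
    have : (0 : ℝ) < 2 * h := by positivity
    nlinarith
  intro n
  induction n with
  | zero =>
    intro R hRn _ _
    have : R = ∅ := card_eq_zero.1 (Nat.le_zero.1 hRn)
    subst this
    refine ⟨∅, by simp, by simp, fun X hX => by simp⟩
  | succ n ih =>
    intro R hRn hR0 hH
    rcases R.eq_empty_or_nonempty with rfl | hne
    · refine ⟨∅, by simp, by simp, fun X hX => by simp⟩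
    obtain ⟨d, hdY, hd⟩ := exists_d h hh Y η (by linarith) hη R hR0 (hH R (Subset.refl _) hne)
    have hd0 : (0 : ℝ) < d := by linarith
    have hd1 : (1 : ℝ) < d := by linarith
    have hRc : (0 : ℝ) < R.card := by exact_mod_cast hne.card_pos
    have hRc1 : (1 : ℝ) ≤ R.card := by exact_mod_cast hne.card_pos
    have hlogR : 0 ≤ Real.log R.card := Real.log_nonneg hRc1
    have hdη : 0 < (d : ℝ) ^ (-η) := Real.rpow_pos_of_pos hd0 _
    obtain ⟨R2, hR2⟩ : ∃ R2, R2 = R.filter (fun q => ¬ d ∣ q) := ⟨_, rfl⟩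
    have hsum : (R.filter (fun q => d ∣ q)).card + R2.card = R.card := by
      rw [hR2]
      exact card_filter_add_card_filter_not _
    have hsumR : ((R.filter (fun q => d ∣ q)).card : ℝ) + R2.card = R.card := by exact_mod_cast hsum
    have hpos : 0 < (R.filter (fun q => d ∣ q)).card := by
      have : (0 : ℝ) < (R.filter (fun q => d ∣ q)).card := lt_of_lt_of_le (by positivity) hd
      exact_mod_cast this
    rcases R2.eq_empty_or_nonempty with h2e | h2ne
    · refine ⟨{d}, ?_, ?_, ?_⟩
      · intro d' hd'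
        rw [mem_singleton] at hd'
        rw [hd']; exact hdY
      · intro q hq
        refine ⟨d, mem_singleton_self _, ?_⟩
        by_contra hdq
        have : q ∈ R2 := by rw [hR2]; exact mem_filter.2 ⟨hq, hdq⟩
        rw [h2e] at this
        exact absurd this (notMem_empty _)
      · intro X hX
        have h1 : (({d} : Finset ℕ).filter (fun d : ℕ => (d : ℝ) ≤ X)).card ≤ 1 := by
          refine (card_filter_le _ _).trans ?_
          simp
        have h2 : ((({d} : Finset ℕ).filter (fun d : ℕ => (d : ℝ) ≤ X)).card : ℝ) ≤ 1 := by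
          exact_mod_cast h1
        have h3 : 0 ≤ X ^ η * Real.log R.card := by positivity
        linarith
    · obtain ⟨D2, hD2a, hD2b, hD2c⟩ := ih R2 (by omega)
        (fun q hq => hR0 q (by rw [hR2] at hq; exact (mem_filter.1 hq).1))
        (fun R' hR' => hH R' (hR'.trans (by rw [hR2]; exact filter_subset _ _)))
      refine ⟨insert d D2, ?_, ?_, ?_⟩
      · intro d' hd'
        rcases mem_insert.1 hd' with rfl | h
        · exact hdY
        · exact hD2a d' h
      · intro q hq
        by_cases hdq : d ∣ q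
        · exact ⟨d, mem_insert_self _ _, hdq⟩
        · obtain ⟨d', h1, h2⟩ := hD2b q (by rw [hR2]; exact mem_filter.2 ⟨hq, hdq⟩)
          exact ⟨d', mem_insert_of_mem h1, h2⟩
      · intro X hX
        have hc := hD2c X hX
        have h2c : (0 : ℝ) < R2.card := by exact_mod_cast h2ne.card_pos
        have h2le : (R2.card : ℝ) ≤ R.card * (1 - (d : ℝ) ^ (-η)) := by
          have : (R.card : ℝ) * (1 - (d : ℝ) ^ (-η)) = R.card - R.card * (d : ℝ) ^ (-η) := by ring
          rw [this]
          linarith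
        have hone : 0 < 1 - (d : ℝ) ^ (-η) := by
          by_contra hcon
          have : (R.card : ℝ) * (1 - (d : ℝ) ^ (-η)) ≤ 0 :=
            mul_nonpos_of_nonneg_of_nonpos hRc.le (not_lt.1 hcon)
          linarith
        have hlog : Real.log R2.card ≤ Real.log R.card - (d : ℝ) ^ (-η) := by
          have h1 := Real.log_le_log h2c h2le
          rw [Real.log_mul hRc.ne' hone.ne'] at h1
          have h2 := Real.log_le_sub_one_of_pos hone
          linarith
        have hXη : 0 ≤ X ^ η := Real.rpow_nonneg (by linarith) _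
        rcases le_or_gt (d : ℝ) X with hdX | hdX
        · have h1 : ((insert d D2).filter (fun d : ℕ => (d : ℝ) ≤ X)).card ≤
              (D2.filter (fun d : ℕ => (d : ℝ) ≤ X)).card + 1 := by
            rw [filter_insert, if_pos hdX]
            exact card_insert_le _ _
          have h2 : (((insert d D2).filter (fun d : ℕ => (d : ℝ) ≤ X)).card : ℝ) ≤
              (D2.filter (fun d : ℕ => (d : ℝ) ≤ X)).card + 1 := by exact_mod_cast h1
          have h3 : 1 ≤ X ^ η * (d : ℝ) ^ (-η) := by
            rw [Real.rpow_neg hd0.le, ← div_eq_mul_inv, le_div_iff₀ (Real.rpow_pos_of_pos hd0 _), one_mul]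
            exact Real.rpow_le_rpow hd0.le hdX hη0.le
          have h4 : X ^ η * Real.log R2.card ≤ X ^ η * (Real.log R.card - (d : ℝ) ^ (-η)) :=
            mul_le_mul_of_nonneg_left hlog hXη
          have h5 : X ^ η * (Real.log R.card - (d : ℝ) ^ (-η)) =
            X ^ η * Real.log R.card - X ^ η * (d : ℝ) ^ (-η) := by ring
          linarith
        · have h1 : (insert d D2).filter (fun d : ℕ => (d : ℝ) ≤ X) = D2.filter (fun d : ℕ => (d : ℝ) ≤ X) := by
            rw [filter_insert, if_neg (not_le.2 hdX)]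
          rw [h1]
          have h4 : X ^ η * Real.log R2.card ≤ X ^ η * Real.log R.card :=
            mul_le_mul_of_nonneg_left (by linarith) hXη
          linarith

end Pool.Agent.TH786.GM
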