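import Pool.Agent.TH786.GM.Kernel
import Pool.Agent.TH786.GM.Struct
import Pool.Agent.TH935.GF2

set_option autoImplicit false

/-! The additive energy of the family of the multiples of the members of a set of integers. -/

namespace Pool.Agent.TH786.GM

open Finset
open Pool.Agent.TH935.GF (En)

lemma sum_fun_pi (h : ℕ) (R : Finset ℕ) (F : (Fin h → ℕ) → ℕ) :
    ∑ a : Fin h → {x // x ∈ R}, F (fun j => (a j : ℕ)) = ∑ a ∈ Fintype.piFinset (fun _ : Fin h => R), F a := by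
  classical
  apply sum_bij (fun (a : Fin h → {x // x ∈ R}) _ => fun j => (a j : ℕ))
  · intro a _
    rw [Fintype.mem_piFinset]
    exact fun j => (a j).2
  · intro a _ b _ hab
    funext j
    exact Subtype.ext (congrFun hab j)
  · intro b hb
    rw [Fintype.mem_piFinset] at hb
    exact ⟨fun j => ⟨b j, hb j⟩, mem_univ _, rfl⟩
  · intro a _
    rfl

lemma lcm_dvd_two_mul (q : ℕ) : Nat.lcm 2 q ∣ 2 * q :=
  Nat.lcm_dvd (Dvd.intro _ rfl) (Dvd.intro_left _ rfl)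

lemma energy_bound (t M Q : ℕ) (hQ : 0 < Q) (R : Finset ℕ) (hR : ∀ q ∈ R, Q ≤ q ∧ q < 2 * Q) :
    En (t + 1) (fun i : {x // x ∈ R} × Fin M => ((Nat.lcm 2 (i.1 : ℕ) : ℕ) : ℤ) * (((i.2 : ℕ) : ℤ) + 1)) * Q ≤
      (M + 4 * Q) ^ (2 * t + 1) * (2 * GG (t + 1) R) := by
  classical
  obtain ⟨W, hW⟩ : ∃ W : Finset ((Fin (t + 1) → {x // x ∈ R} × Fin M) × (Fin (t + 1) → {x // x ∈ R} × Fin M)),
    W = univ.filter (fun q => ∑ j, ((Nat.lcm 2 ((q.1 j).1 : ℕ) : ℕ) : ℤ) * ((((q.1 j).2 : ℕ) : ℤ) + 1) =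
      ∑ j, ((Nat.lcm 2 ((q.2 j).1 : ℕ) : ℕ) : ℤ) * ((((q.2 j).2 : ℕ) : ℤ) + 1)) := ⟨_, rfl⟩
  have hEn : En (t + 1) (fun i : {x // x ∈ R} × Fin M =>
      ((Nat.lcm 2 (i.1 : ℕ) : ℕ) : ℤ) * (((i.2 : ℕ) : ℤ) + 1)) = W.card := by
    unfold En
    rw [Nat.card_eq_fintype_card, Fintype.card_subtype, hW]
  obtain ⟨π, hπ⟩ : ∃ π : (Fin (t + 1) → {x // x ∈ R} × Fin M) × (Fin (t + 1) → {x // x ∈ R} × Fin M) →
      (Fin (t + 1) → {x // x ∈ R}) × (Fin (t + 1) → {x // x ∈ R}),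
      π = fun q => (fun j => (q.1 j).1, fun j => (q.2 j).1) := ⟨_, rfl⟩
  have hfib : W.card = ∑ ab ∈ (univ : Finset ((Fin (t + 1) → {x // x ∈ R}) × (Fin (t + 1) → {x // x ∈ R}))),
      (W.filter (fun q => π q = ab)).card :=
    card_eq_sum_card_fiberwise (fun q _ => mem_coe.2 (mem_univ _))
  have hone : ∀ ab : (Fin (t + 1) → {x // x ∈ R}) × (Fin (t + 1) → {x // x ∈ R}),
      (W.filter (fun q => π q = ab)).card * Q ≤ (M + 4 * Q) ^ (2 * t + 1) *
        (2 * Nat.gcd (univ.gcd (fun j => (ab.1 j : ℕ))) (univ.gcd (fun j => (ab.2 j : ℕ)))) := by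
    intro ab
    have hb := hR _ (ab.2 (Fin.last t)).2
    have hlast : 0 < Nat.lcm 2 (ab.2 (Fin.last t) : ℕ) := Nat.lcm_pos (by norm_num) (by omega)
    have hlow : Q ≤ Nat.lcm 2 (ab.2 (Fin.last t) : ℕ) :=
      hb.1.trans (Nat.le_of_dvd hlast (Nat.dvd_lcm_right _ _))
    have hup : Nat.lcm 2 (ab.2 (Fin.last t) : ℕ) ≤ 4 * Q := by
      have := Nat.le_of_dvd (by omega) (lcm_dvd_two_mul (ab.2 (Fin.last t) : ℕ))
      omega
    obtain ⟨e, he, hea, heb, hE⟩ := equation t M (fun j => Nat.lcm 2 (ab.1 j : ℕ))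
      (fun j => Nat.lcm 2 (ab.2 j : ℕ)) hlast
    have hle : (W.filter (fun q => π q = ab)).card ≤
        (univ.filter (fun p : (Fin (t + 1) → Fin M) × (Fin (t + 1) → Fin M) =>
        ∑ j, ((Nat.lcm 2 (ab.1 j : ℕ) : ℕ) : ℤ) * (((p.1 j : ℕ) : ℤ) + 1) =
          ∑ j, ((Nat.lcm 2 (ab.2 j : ℕ) : ℕ) : ℤ) * (((p.2 j : ℕ) : ℤ) + 1))).card := by
      apply card_le_card_of_injOn (fun q => (fun j => (q.1 j).2, fun j => (q.2 j).2))
      · intro q hq
        rw [mem_coe, mem_filter, hW, mem_filter] at hq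
        rw [mem_coe, mem_filter]
        refine ⟨mem_univ _, ?_⟩
        rw [← hq.2, hπ]
        exact hq.1.2
      · intro q hq q' hq' hqq
        rw [mem_coe, mem_filter] at hq hq'
        have h1 : π q = π q' := by rw [hq.2, hq'.2]
        rw [hπ] at h1
        simp only [Prod.mk.injEq] at h1 hqq
        apply Prod.ext
        · funext j
          exact Prod.ext (congrFun h1.1 j) (congrFun hqq.1 j)
        · funext j
          exact Prod.ext (congrFun h1.2 j) (congrFun hqq.2 j)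
    have hed : e ≤ 2 * Nat.gcd (univ.gcd (fun j => (ab.1 j : ℕ))) (univ.gcd (fun j => (ab.2 j : ℕ))) := by
      apply Nat.le_of_dvd
      · apply Nat.mul_pos (by norm_num)
        apply Nat.gcd_pos_of_pos_left
        rw [Nat.pos_iff_ne_zero]
        intro h0
        rw [Finset.gcd_eq_zero_iff] at h0
        have h1 := h0 0 (mem_univ _)
        have h2 := hR _ (ab.1 0).2
        omega
      · rw [← Nat.gcd_mul_left]
        apply Nat.dvd_gcd
        · have h1 : 2 * univ.gcd (fun j => (ab.1 j : ℕ)) = univ.gcd (fun j => 2 * (ab.1 j : ℕ)) := by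
            rw [Finset.gcd_mul_left]
            simp
          rw [h1]
          exact Finset.dvd_gcd fun j _ => (hea j).trans (lcm_dvd_two_mul _)
        · have h1 : 2 * univ.gcd (fun j => (ab.2 j : ℕ)) = univ.gcd (fun j => 2 * (ab.2 j : ℕ)) := by
            rw [Finset.gcd_mul_left]
            simp
          rw [h1]
          exact Finset.dvd_gcd fun j _ => (heb j).trans (lcm_dvd_two_mul _)
    calc (W.filter (fun q => π q = ab)).card * Q
        ≤ (univ.filter (fun p : (Fin (t + 1) → Fin M) × (Fin (t + 1) → Fin M) =>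
        ∑ j, ((Nat.lcm 2 (ab.1 j : ℕ) : ℕ) : ℤ) * (((p.1 j : ℕ) : ℤ) + 1) =
          ∑ j, ((Nat.lcm 2 (ab.2 j : ℕ) : ℕ) : ℤ) * (((p.2 j : ℕ) : ℤ) + 1))).card *
            Nat.lcm 2 (ab.2 (Fin.last t) : ℕ) := Nat.mul_le_mul hle hlow
      _ ≤ (M + Nat.lcm 2 (ab.2 (Fin.last t) : ℕ)) ^ (2 * t + 1) * e := hE
      _ ≤ (M + 4 * Q) ^ (2 * t + 1) * (2 * Nat.gcd (univ.gcd (fun j => (ab.1 j : ℕ)))
          (univ.gcd (fun j => (ab.2 j : ℕ)))) := by
          apply Nat.mul_le_mul _ hed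
          apply Nat.pow_le_pow_left
          omega
  have hGG : ∑ ab : (Fin (t + 1) → {x // x ∈ R}) × (Fin (t + 1) → {x // x ∈ R}),
      Nat.gcd (univ.gcd (fun j => (ab.1 j : ℕ))) (univ.gcd (fun j => (ab.2 j : ℕ))) = GG (t + 1) R := by
    unfold GG
    rw [Fintype.sum_prod_type]
    rw [← sum_fun_pi (t + 1) R (fun a => ∑ b ∈ Fintype.piFinset (fun _ : Fin (t + 1) => R),
      Nat.gcd (univ.gcd a) (univ.gcd b))]
    apply sum_congr rfl
    intro a _
    exact sum_fun_pi (t + 1) R (fun b => Nat.gcd (univ.gcd (fun j => (a j : ℕ))) (univ.gcd b))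
  rw [hEn, hfib, sum_mul]
  calc ∑ ab : (Fin (t + 1) → {x // x ∈ R}) × (Fin (t + 1) → {x // x ∈ R}),
      (W.filter (fun q => π q = ab)).card * Q ≤
      ∑ ab : (Fin (t + 1) → {x // x ∈ R}) × (Fin (t + 1) → {x // x ∈ R}), (M + 4 * Q) ^ (2 * t + 1) *
        (2 * Nat.gcd (univ.gcd (fun j => (ab.1 j : ℕ))) (univ.gcd (fun j => (ab.2 j : ℕ)))) :=
        sum_le_sum fun ab _ => hone ab
    _ = (M + 4 * Q) ^ (2 * t + 1) * (2 * GG (t + 1) R) := by
        rw [← mul_sum, ← mul_sum, hGG]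

end Pool.Agent.TH786.GM
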