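import Pool.Agent.TH786.GM.Core

set_option autoImplicit false

/-! The exceptional moduli `q ≤ √N` are multiples of few integers. -/

namespace Pool.Agent.TH786.GM

open Finset
open Pool.Agent.W93.GB (Good)

theorem main (ε ρ : ℝ) (hε : 0 < ε) (hρ : 0 < ρ) (A K : ℕ) :
    ∃ N₀ : ℕ, ∀ N : ℕ, N₀ ≤ N → ∃ D : Finset ℕ,
      (∀ d ∈ D, Real.log N ^ A < (d : ℝ)) ∧
      (∀ X : ℝ, 1 ≤ X → ((D.filter (fun d : ℕ => (d : ℝ) ≤ X)).card : ℝ) ≤ X ^ ρ) ∧
      ∀ q : ℕ, 1 ≤ q → q ≤ N → (q : ℝ) * q ≤ N * Real.log N ^ K → (∀ d ∈ D, ¬ d ∣ q) →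
        ((exc ε N q).card : ℝ) ≤ N / (q * Real.log N ^ A) := by
  classical
  obtain ⟨B, hB⟩ := exists_nat_ge (6 / ρ)
  obtain ⟨t, ht⟩ := exists_nat_ge (3 / ρ)
  obtain ⟨A', hA'⟩ : ∃ A', A' = A + B + 1 := ⟨_, rfl⟩
  obtain ⟨η, hη⟩ : ∃ η : ℝ, η = 3 / (2 * ((t : ℝ) + 1)) := ⟨_, rfl⟩
  have ht0 : (0 : ℝ) ≤ t := Nat.cast_nonneg _
  have hη0 : 0 < η := by rw [hη]; positivity
  have hη1 : η * (2 * ((t + 1 : ℕ) : ℝ)) = 3 := by
    rw [hη]; push_cast; field_simp
  have hη2 : η ≤ ρ / 2 := by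
    rw [hη, div_le_div_iff₀ (by positivity) (by norm_num)]
    rw [div_le_iff₀ hρ] at ht
    nlinarith
  have hA0 : (0 : ℝ) < A' := by rw [hA']; push_cast; positivity
  have hA1 : 3 / (A' : ℝ) ≤ ρ / 2 := by
    rw [div_le_div_iff₀ hA0 (by norm_num)]
    rw [div_le_iff₀ hρ] at hB
    have : (B : ℝ) ≤ A' := by rw [hA']; push_cast; linarith [(Nat.cast_nonneg A : (0 : ℝ) ≤ A)]
    nlinarith
  obtain ⟨N₁, h1⟩ := core t A' (A' + 1) K ε hε
  obtain ⟨N₂, h2⟩ := Pool.Agent.H373R2.T7.ev_L' 20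
  refine ⟨N₁ + N₂ + 1, fun N hN => ?_⟩
  have hL := h2 N (by omega)
  have c1 := h1 N (by omega)
  obtain ⟨L, hLd⟩ : ∃ L, L = Real.log (N : ℝ) := ⟨_, rfl⟩
  rw [← hLd] at hL c1 ⊢
  have hL0 : 0 < L := by linarith
  have hL1 : 1 ≤ L := by linarith
  have hN0 : (0 : ℝ) < N := by exact_mod_cast (by omega : 0 < N)
  have hY : 1 ≤ L ^ A' := one_le_pow₀ hL1
  obtain ⟨Rj, hRj⟩ : ∃ Rj : ℕ → Finset ℕ, Rj = fun j => (Icc 1 N).filter (fun q : ℕ => (q : ℝ) * q ≤ N * L ^ K ∧
    2 ^ j ≤ q ∧ q < 2 * 2 ^ j ∧ (N : ℝ) / (q * L ^ A') < (exc ε N q).card) := ⟨_, rfl⟩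
  have hst : ∀ j, ∃ D : Finset ℕ, (∀ d ∈ D, L ^ A' < d) ∧ (∀ q ∈ Rj j, ∃ d ∈ D, d ∣ q) ∧
        ∀ X : ℝ, 1 ≤ X → ((D.filter (fun d : ℕ => (d : ℝ) ≤ X)).card : ℝ) ≤
          X ^ η * Real.log (Rj j).card + 1 := by
    intro j
    apply structure' (t + 1) (by omega) (L ^ A') η hY hη1 (Rj j).card (Rj j) le_rfl
    · intro q hq
      rw [hRj, mem_filter, mem_Icc] at hq
      exact hq.1.1
    · intro R' hR' hne
      have hmem : ∀ q ∈ R', (q ∈ Icc 1 N) ∧ (q : ℝ) * q ≤ N * L ^ K ∧ 2 ^ j ≤ q ∧ q < 2 * 2 ^ j ∧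
          (N : ℝ) / (q * L ^ A') < (exc ε N q).card := by
        intro q hq
        have := hR' hq
        rw [hRj, mem_filter] at this
        exact this
      obtain ⟨q0, hq0⟩ := hne
      have hq1 := hmem q0 hq0
      have hq2 : ((2 ^ j : ℕ) : ℝ) ≤ q0 := by exact_mod_cast hq1.2.2.1
      have h3 := c1 (2 ^ j) Nat.one_le_two_pow (hq1.2.2.1.trans (mem_Icc.1 hq1.1).2)
        ((mul_le_mul hq2 hq2 (Nat.cast_nonneg _) (Nat.cast_nonneg _)).trans hq1.2.1) R' ⟨q0, hq0⟩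
        (fun q hq => ⟨(hmem q hq).2.2.1, (hmem q hq).2.2.2.1⟩) (fun q hq => (hmem q hq).2.2.2.2)
      refine lt_of_le_of_lt ?_ h3
      apply mul_le_mul_of_nonneg_right _ (by positivity)
      rw [pow_succ]
      nlinarith
  choose Dj hDj using hst
  obtain ⟨J, hJ⟩ : ∃ J, J = Nat.log 2 N + 1 := ⟨_, rfl⟩
  have hJL : (J : ℝ) ≤ 2 * L + 1 := by
    rw [hJ]
    push_cast
    have h3 : (Nat.log 2 N : ℝ) ≤ Real.logb 2 N := by
      have := Real.natLog_le_logb N 2
      exact_mod_cast this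
    have h4 : Real.logb 2 N ≤ 2 * L := by
      rw [Real.logb, ← hLd, div_le_iff₀ (Real.log_pos (by norm_num))]
      have := Real.log_two_gt_d9
      nlinarith
    linarith
  have hcardlog : ∀ j, Real.log (Rj j).card ≤ L := by
    intro j
    rcases Nat.eq_zero_or_pos (Rj j).card with h0 | h0
    · rw [h0]; simp; linarith
    · rw [hLd]
      apply Real.log_le_log (by exact_mod_cast h0)
      have : (Rj j).card ≤ N := by
        calc (Rj j).card ≤ (Icc 1 N).card := by rw [hRj]; exact card_filter_le _ _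
          _ = N := by simp
      exact_mod_cast this
  refine ⟨(range J).biUnion Dj, ?_, ?_, ?_⟩
  · intro d hd
    obtain ⟨j, _, hj⟩ := mem_biUnion.1 hd
    have h3 := (hDj j).1 d hj
    refine lt_of_le_of_lt ?_ h3
    apply pow_le_pow_right₀ hL1
    omega
  · intro X hX
    have hX0 : 0 < X := by linarith
    rcases le_or_gt X (L ^ A') with hXY | hXY
    · have h3 : ((range J).biUnion Dj).filter (fun d : ℕ => (d : ℝ) ≤ X) = ∅ := by
        rw [filter_eq_empty_iff]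
        intro d hd hdX
        obtain ⟨j, _, hj⟩ := mem_biUnion.1 hd
        have h3 := (hDj j).1 d hj
        linarith
      rw [h3]
      simp
      positivity
    · have h3 : (((range J).biUnion Dj).filter (fun d : ℕ => (d : ℝ) ≤ X)).card ≤
          ∑ j ∈ range J, ((Dj j).filter (fun d : ℕ => (d : ℝ) ≤ X)).card := by
        rw [filter_biUnion]
        exact card_biUnion_le
      have hXη1 : 1 ≤ X ^ η := Real.one_le_rpow hX hη0.le
      calc ((((range J).biUnion Dj).filter (fun d : ℕ => (d : ℝ) ≤ X)).card : ℝ)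
          ≤ ((∑ j ∈ range J, ((Dj j).filter (fun d : ℕ => (d : ℝ) ≤ X)).card : ℕ) : ℝ) := by
            exact_mod_cast h3
        _ = ∑ j ∈ range J, (((Dj j).filter (fun d : ℕ => (d : ℝ) ≤ X)).card : ℝ) := by push_cast; rfl
        _ ≤ ∑ _j ∈ range J, (X ^ η * L + 1) := by
            apply sum_le_sum
            intro j _
            refine ((hDj j).2.2 X hX).trans ?_
            have := mul_le_mul_of_nonneg_left (hcardlog j) (by positivity : 0 ≤ X ^ η)
            linarith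
        _ = J * (X ^ η * L + 1) := by rw [sum_const, card_range, nsmul_eq_mul]
        _ ≤ (2 * L + 1) * (X ^ η * L + 1) := mul_le_mul_of_nonneg_right hJL (by positivity)
        _ ≤ (3 * L) * (X ^ η * L + X ^ η * L) := by
            apply mul_le_mul (by linarith) _ (by positivity) (by positivity)
            nlinarith
        _ = 6 * (L ^ 2 * X ^ η) := by ring
        _ ≤ L * (L ^ 2 * X ^ η) := mul_le_mul_of_nonneg_right (by linarith) (by positivity)
        _ = L ^ 3 * X ^ η := by ring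
        _ ≤ X ^ (3 / (A' : ℝ)) * X ^ η := by
            apply mul_le_mul_of_nonneg_right _ (by positivity)
            have e1 : L ^ 3 = (L ^ A') ^ (3 / (A' : ℝ)) := by
              rw [← Real.rpow_natCast L A', ← Real.rpow_mul hL0.le, mul_div_cancel₀ _ hA0.ne']
              norm_num
            rw [e1]
            exact Real.rpow_le_rpow (by positivity) hXY.le (by positivity)
        _ = X ^ (3 / (A' : ℝ) + η) := by rw [Real.rpow_add hX0]
        _ ≤ X ^ ρ := Real.rpow_le_rpow_of_exponent_le hX (by linarith)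
  · intro q hq hqle hqN hqD
    by_contra hcon
    push Not at hcon
    have hq0 : (0 : ℝ) < q := by exact_mod_cast hq
    have hbad : (N : ℝ) / (q * L ^ A') < (exc ε N q).card := by
      refine lt_of_le_of_lt ?_ hcon
      apply div_le_div_of_nonneg_left hN0.le (by positivity)
      apply mul_le_mul_of_nonneg_left _ hq0.le
      apply pow_le_pow_right₀ hL1
      omega
    have hmem : q ∈ Rj (Nat.log 2 q) := by
      rw [hRj, mem_filter, mem_Icc]
      refine ⟨⟨hq, hqle⟩, hqN, Nat.pow_log_le_self 2 (by omega), ?_, hbad⟩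
      have := Nat.lt_pow_succ_log_self (by norm_num : 1 < 2) q
      rw [pow_succ] at this
      omega
    obtain ⟨d, hd, hdq⟩ := (hDj (Nat.log 2 q)).2.1 q hmem
    apply hqD d _ hdq
    apply mem_biUnion.2 ⟨Nat.log 2 q, _, hd⟩
    rw [mem_range, hJ]
    have := Nat.log_mono_right (b := 2) hqle
    omega

end Pool.Agent.TH786.GM
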