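import Mathlib

set_option autoImplicit false

/-! Solutions of linear equations in a box: an upper bound with the greatest common divisor of the
coefficients. -/

namespace Pool.Agent.TH786.GM

open Finset

/-- the number of solutions of a homogeneous linear congruence -/
lemma kernel {ι : Type} [Fintype ι] [DecidableEq ι] (r : ℕ) (hr : 0 < r) (c : ι → ℤ) :
    ∃ e : ℕ, 0 < e ∧ e ∣ r ∧ (∀ i, (e : ℤ) ∣ c i) ∧
      Nat.card {y : ι → ZMod r // ∑ i, (c i : ZMod r) * y i = 0} * r ≤ r ^ Fintype.card ι * e := by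
  haveI : NeZero r := ⟨hr.ne'⟩
  let f : (ι → ZMod r) →+ ZMod r :=
    { toFun := fun y => ∑ i, (c i : ZMod r) * y i
      map_zero' := by simp
      map_add' := by intro y z; simp [mul_add, sum_add_distrib] }
  have hf : ∀ y, f y = ∑ i, (c i : ZMod r) * y i := fun y => rfl
  let H : AddSubgroup ℤ := f.range.comap (Int.castAddHom (ZMod r))
  have hH : ∀ z : ℤ, z ∈ H ↔ (z : ZMod r) ∈ f.range := fun z => Iff.rfl
  obtain ⟨e0, he0⟩ := Int.subgroup_cyclic H
  have hmem : ∀ z : ℤ, z ∈ H ↔ e0 ∣ z := by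
    intro z
    rw [he0, AddSubgroup.mem_closure_singleton]
    constructor
    · rintro ⟨n, hn⟩
      exact ⟨n, by rw [← hn, smul_eq_mul, mul_comm]⟩
    · rintro ⟨n, hn⟩
      exact ⟨n, by rw [hn, smul_eq_mul, mul_comm]⟩
  have hr1 : e0 ∣ (r : ℤ) := by
    rw [← hmem, hH]
    have : ((r : ℤ) : ZMod r) = 0 := by simp
    rw [this]
    exact f.range.zero_mem
  have hc1 : ∀ i, e0 ∣ c i := by
    intro i
    rw [← hmem, hH]
    refine ⟨Pi.single i 1, ?_⟩
    rw [hf]
    rw [Finset.sum_eq_single i]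
    · simp
    · intro j _ hj
      simp [Pi.single_apply, hj]
    · intro h
      exact absurd (mem_univ i) h
  have he : 0 < e0.natAbs := by
    rw [Int.natAbs_pos]
    rintro rfl
    have := Int.zero_dvd.1 hr1
    exact hr.ne' (by exact_mod_cast this)
  have her : e0.natAbs ∣ r := by
    have := Int.natAbs_dvd_natAbs.2 hr1
    simpa using this
  refine ⟨e0.natAbs, he, her, fun i => by rw [Int.natAbs_dvd]; exact hc1 i, ?_⟩
  have hein : ((e0.natAbs : ℕ) : ZMod r) ∈ f.range := by
    have h1 : ((e0.natAbs : ℕ) : ℤ) ∈ H := by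
      rw [hmem]
      exact Int.dvd_natAbs.2 dvd_rfl
    have h2 := (hH _).1 h1
    simpa using h2
  have hord : r / e0.natAbs ≤ Nat.card f.range := by
    have h1 : addOrderOf ((e0.natAbs : ℕ) : ZMod r) = r / e0.natAbs := by
      rw [ZMod.addOrderOf_coe _ hr.ne', Nat.gcd_eq_right her]
    rw [← h1, ← Nat.card_zmultiples]
    have h2 : AddSubgroup.zmultiples ((e0.natAbs : ℕ) : ZMod r) ≤ f.range :=
      AddSubgroup.zmultiples_le_of_mem hein
    exact Nat.card_mono (Set.toFinite _) h2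
  have hker : Nat.card f.ker * Nat.card f.range = r ^ Fintype.card ι := by
    have h1 := AddSubgroup.card_mul_index f.ker
    rw [AddSubgroup.index_ker] at h1
    rw [h1, Nat.card_eq_fintype_card, Fintype.card_fun, ZMod.card]
  have hk : Nat.card {y : ι → ZMod r // ∑ i, (c i : ZMod r) * y i = 0} = Nat.card f.ker := by
    apply Nat.card_congr
    exact Equiv.subtypeEquivRight (fun y => by rw [AddMonoidHom.mem_ker, hf])
  rw [hk]
  calc Nat.card f.ker * r = Nat.card f.ker * (r / e0.natAbs) * e0.natAbs := by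
        rw [mul_assoc, Nat.div_mul_cancel her]
    _ ≤ Nat.card f.ker * Nat.card f.range * e0.natAbs :=
        Nat.mul_le_mul_right _ (Nat.mul_le_mul_left _ hord)
    _ = r ^ Fintype.card ι * e0.natAbs := by rw [hker]

/-- solutions of a linear congruence in a box -/
lemma box {ι : Type} [Fintype ι] [DecidableEq ι] (r M : ℕ) (hr : 0 < r) (c : ι → ℤ) :
    ∃ e : ℕ, 0 < e ∧ e ∣ r ∧ (∀ i, (e : ℤ) ∣ c i) ∧
      (univ.filter (fun m : ι → Fin M => (r : ℤ) ∣ ∑ i, c i * (((m i : ℕ) : ℤ) + 1))).card * r ≤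
        (M + r) ^ Fintype.card ι * e := by
  classical
  haveI : NeZero r := ⟨hr.ne'⟩
  obtain ⟨e, he, her, hec, hk⟩ := kernel r hr c
  refine ⟨e, he, her, hec, ?_⟩
  obtain ⟨S, hS⟩ : ∃ S, S = univ.filter (fun m : ι → Fin M =>
      (r : ℤ) ∣ ∑ i, c i * (((m i : ℕ) : ℤ) + 1)) := ⟨_, rfl⟩
  obtain ⟨K, hK⟩ : ∃ K, K = univ.filter (fun y : ι → ZMod r => ∑ i, (c i : ZMod r) * y i = 0) :=
    ⟨_, rfl⟩
  have hKc : Nat.card {y : ι → ZMod r // ∑ i, (c i : ZMod r) * y i = 0} = K.card := by
    rw [Nat.card_eq_fintype_card, Fintype.card_subtype, hK]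
  rw [← hS]
  obtain ⟨φ, hφ⟩ : ∃ φ : (ι → Fin M) → (ι → ZMod r), φ = fun m i => (((m i : ℕ) + 1 : ℕ) : ZMod r) :=
    ⟨_, rfl⟩
  have himg : S.image φ ⊆ K := by
    intro y hy
    obtain ⟨m, hm, rfl⟩ := mem_image.1 hy
    rw [hS, mem_filter] at hm
    rw [hK, mem_filter]
    refine ⟨mem_univ _, ?_⟩
    have h1 := (ZMod.intCast_zmod_eq_zero_iff_dvd _ r).2 hm.2
    rw [hφ]
    push_cast at h1 ⊢
    exact h1
  have hfib : ∀ y ∈ S.image φ, (S.filter (fun m => φ m = y)).card ≤ (M / r + 1) ^ Fintype.card ι := by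
    intro y _
    have h1 : (S.filter (fun m => φ m = y)).card ≤ (univ : Finset (ι → Fin (M / r + 1))).card := by
      apply card_le_card_of_injOn (fun m i => (⟨(m i : ℕ) / r,
        Nat.lt_succ_of_le (Nat.div_le_div_right (m i).2.le)⟩ : Fin (M / r + 1)))
      · intro m _
        exact mem_coe.2 (mem_univ _)
      · intro m hm m' hm' hmm
        rw [mem_coe, mem_filter] at hm hm'
        funext i
        have h2 : φ m i = φ m' i := by rw [hm.2, hm'.2]
        rw [hφ] at h2
        simp only at h2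
        rw [ZMod.natCast_eq_natCast_iff] at h2
        have h3 : (m i : ℕ) % r = (m' i : ℕ) % r := Nat.ModEq.add_right_cancel' 1 h2
        have h4 : (m i : ℕ) / r = (m' i : ℕ) / r := by
          have := congrFun hmm i
          simpa using congrArg Fin.val this
        apply Fin.ext
        rw [← Nat.div_add_mod (m i : ℕ) r, ← Nat.div_add_mod (m' i : ℕ) r, h3, h4]
    rw [card_univ, Fintype.card_fun, Fintype.card_fin] at h1
    exact h1
  have h1 := card_le_mul_card_image S _ hfib
  have h2 : S.card ≤ (M / r + 1) ^ Fintype.card ι * K.card :=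
    h1.trans (Nat.mul_le_mul_left _ (card_le_card himg))
  calc S.card * r ≤ (M / r + 1) ^ Fintype.card ι * K.card * r := Nat.mul_le_mul_right _ h2
    _ = (M / r + 1) ^ Fintype.card ι * (K.card * r) := by ring
    _ ≤ (M / r + 1) ^ Fintype.card ι * (r ^ Fintype.card ι * e) := by
        rw [← hKc]
        exact Nat.mul_le_mul_left _ hk
    _ = ((M / r + 1) * r) ^ Fintype.card ι * e := by rw [mul_pow]; ring
    _ ≤ (M + r) ^ Fintype.card ι * e := by
        apply Nat.mul_le_mul_right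
        apply Nat.pow_le_pow_left
        have := Nat.div_mul_le_self M r
        rw [add_mul, one_mul]
        omega

/-- solutions of a linear equation in a box -/
lemma equation (t M : ℕ) (a b : Fin (t + 1) → ℕ) (hr : 0 < b (Fin.last t)) :
    ∃ e : ℕ, 0 < e ∧ (∀ j, e ∣ a j) ∧ (∀ j, e ∣ b j) ∧
      (univ.filter (fun p : (Fin (t + 1) → Fin M) × (Fin (t + 1) → Fin M) =>
        ∑ j, (a j : ℤ) * (((p.1 j : ℕ) : ℤ) + 1) = ∑ j, (b j : ℤ) * (((p.2 j : ℕ) : ℤ) + 1))).card *
          b (Fin.last t) ≤ (M + b (Fin.last t)) ^ (2 * t + 1) * e := by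
  classical
  obtain ⟨c, hc⟩ : ∃ c : Fin (t + 1) ⊕ Fin t → ℤ, c = Sum.elim (fun j => (a j : ℤ))
    (fun j => - (b j.castSucc : ℤ)) := ⟨_, rfl⟩
  obtain ⟨e, he, her, hec, hk⟩ := box (ι := Fin (t + 1) ⊕ Fin t) (b (Fin.last t)) M hr c
  refine ⟨e, he, ?_, ?_, ?_⟩
  · intro j
    have := hec (Sum.inl j)
    rw [hc] at this
    exact Int.natCast_dvd_natCast.1 this
  · intro j
    refine Fin.lastCases her (fun i => ?_) j
    have := hec (Sum.inr i)
    rw [hc] at this
    simp only [Sum.elim_inr, dvd_neg] at this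
    exact Int.natCast_dvd_natCast.1 this
  · have hcard : Fintype.card (Fin (t + 1) ⊕ Fin t) = 2 * t + 1 := by
      rw [Fintype.card_sum, Fintype.card_fin, Fintype.card_fin]; ring
    rw [hcard] at hk
    refine le_trans (Nat.mul_le_mul_right _ ?_) hk
    apply card_le_card_of_injOn (fun p => Sum.elim p.1 (fun j => p.2 j.castSucc))
    · intro p hp
      rw [mem_coe, mem_filter] at hp
      rw [mem_coe, mem_filter]
      refine ⟨mem_univ _, ?_⟩
      have h1 := hp.2
      rw [Fin.sum_univ_castSucc (n := t) (f := fun j => (b j : ℤ) * (((p.2 j : ℕ) : ℤ) + 1))] at h1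
      rw [Fintype.sum_sum_type]
      simp only [hc, Sum.elim_inl, Sum.elim_inr]
      refine ⟨((p.2 (Fin.last t) : ℕ) : ℤ) + 1, ?_⟩
      rw [h1]
      simp only [neg_mul, sum_neg_distrib]
      ring
    · intro p hp p' hp' hpp
      rw [mem_coe, mem_filter] at hp hp'
      have e1 : p.1 = p'.1 := by
        funext j
        have := congrFun hpp (Sum.inl j)
        simpa using this
      have e2 : ∀ j : Fin t, p.2 j.castSucc = p'.2 j.castSucc := by
        intro j
        have := congrFun hpp (Sum.inr j)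
        simpa using this
      have h1 := hp.2
      have h1' := hp'.2
      rw [Fin.sum_univ_castSucc (n := t) (f := fun j => (b j : ℤ) * (((p.2 j : ℕ) : ℤ) + 1))] at h1
      rw [Fin.sum_univ_castSucc (n := t) (f := fun j => (b j : ℤ) * (((p'.2 j : ℕ) : ℤ) + 1))] at h1'
      rw [e1] at h1
      simp only [e2] at h1
      have h2 : (b (Fin.last t) : ℤ) * (((p.2 (Fin.last t) : ℕ) : ℤ) + 1) =
          (b (Fin.last t) : ℤ) * (((p'.2 (Fin.last t) : ℕ) : ℤ) + 1) := by
        linarith
      have hb : (b (Fin.last t) : ℤ) ≠ 0 := by exact_mod_cast hr.ne'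
      have h3 := mul_left_cancel₀ hb h2
      have h4 : (p.2 (Fin.last t) : ℕ) = (p'.2 (Fin.last t) : ℕ) := by
        have : ((p.2 (Fin.last t) : ℕ) : ℤ) = ((p'.2 (Fin.last t) : ℕ) : ℤ) := by linarith
        exact_mod_cast this
      have e3 : p.2 = p'.2 := by
        funext j
        refine Fin.lastCases (Fin.ext h4) (fun i => e2 i) j
      exact Prod.ext e1 e3

end Pool.Agent.TH786.GM
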